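import Mathlib

/-!
# MP_04b39a_gt, Q1: an infinite subset of a horizontal plane of `ℝ³` with a non-planar
`ℓ_p`-isometric copy

For `p = 3` there is an infinite set `M` in the horizontal plane `x₃ = 0` of `ℝ³` (infinitely many
points of one line and two further points) and an `ℓ₃`-isometric copy `M'` of `M` which is not
contained in any plane.  Hence the answer to Q1 of MP_04b39a_gt is negative.

The mechanism: two points of the real line with equal weights `3/2` at `-1, 1` and three points with
equal weights `1` at `-r, 0, r`, `r² = 3/2`, have the same moments of order `0, 1, 2, 3`.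
-/

namespace Pool.Agent.Results.MP_04b39a_gt.NonplanarCopy

open Module

/-- The `ℓ_p`-distance `(|x₁ - y₁|^p + |x₂ - y₂|^p + |x₃ - y₃|^p)^{1/p}` on `ℝ³`. -/
noncomputable def lpDist (p : ℝ) (x y : Fin 3 → ℝ) : ℝ :=
  (∑ i, |x i - y i| ^ p) ^ (1 / p)

/-- `M'` is an `ℓ_p`-isometric copy of `M`: there is a bijection from `M` onto `M'` which preserves
the `ℓ_p`-distances between points of `M`. -/
def IsLpCopy (p : ℝ) (M M' : Set (Fin 3 → ℝ)) : Prop :=
  ∃ φ : (Fin 3 → ℝ) → (Fin 3 → ℝ), Set.BijOn φ M M' ∧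
    ∀ x ∈ M, ∀ y ∈ M, lpDist p (φ x) (φ y) = lpDist p x y

/-- `M` lies in a horizontal plane `{x : x₃ = c}`. -/
def InHorizontalPlane (M : Set (Fin 3 → ℝ)) : Prop :=
  ∃ c : ℝ, ∀ x ∈ M, x 2 = c

/-- `M` is contained in some plane, i.e. in some affine subspace of `ℝ³` of dimension `2`. -/
def InSomePlane (M : Set (Fin 3 → ℝ)) : Prop :=
  ∃ P : AffineSubspace ℝ (Fin 3 → ℝ), finrank ℝ P.direction = 2 ∧ M ⊆ P

/-- the planar points: `a` plays the role of `c = (3/2)^{1/3}` -/
def f (a e : ℝ) : Option (Option ℕ) → (Fin 3 → ℝ)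
  | none => ![a, -a, 0]
  | some none => ![-(a * e), a * e, 0]
  | some (some n) => ![-(a * (n + 2)), -(a * (n + 2)), 0]

/-- the copied points: `r = √(3/2)` -/
def g (r e : ℝ) : Option (Option ℕ) → (Fin 3 → ℝ)
  | none => ![r, -r, 0]
  | some none => ![-(r * e), 0, r * e]
  | some (some n) => ![-(n + 2 : ℝ), -(n + 2 : ℝ), -(n + 2 : ℝ)]

/-- sum of the cubes of the absolute values of the differences -/
def S (x y : Fin 3 → ℝ) : ℝ := |x 0 - y 0| ^ 3 + |x 1 - y 1| ^ 3 + |x 2 - y 2| ^ 3

theorem lpDist_three (x y : Fin 3 → ℝ) : lpDist 3 x y = (S x y) ^ (1 / 3 : ℝ) := by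
  unfold lpDist S
  have h : ∀ t : ℝ, t ^ (3 : ℝ) = t ^ 3 := fun t => by exact_mod_cast Real.rpow_natCast t 3
  rw [Fin.sum_univ_three, h, h, h]

theorem S_comm (x y : Fin 3 → ℝ) : S x y = S y x := by
  unfold S
  rw [abs_sub_comm (x 0), abs_sub_comm (x 1), abs_sub_comm (x 2)]

theorem S_self (x : Fin 3 → ℝ) : S x x = 0 := by
  unfold S; simp

/-- the exponent `ε` with `3 (1+ε)³ = r³ ((1+ε)³ + 1 + ε³)` -/
theorem exists_eps (r : ℝ) (hr0 : 0 < r) (hr : r ^ 2 = 3 / 2) :
    ∃ e : ℝ, 0 < e ∧ e < 1 ∧ 3 * (1 + e) ^ 3 = r ^ 3 * ((1 + e) ^ 3 + 1 + e ^ 3) := by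
  have hr3 : r ^ 3 = 3 / 2 * r := by rw [pow_succ, hr]
  have h1 : 1.2 < r := by nlinarith
  have h2 : r < 1.3 := by nlinarith
  set F : ℝ → ℝ := fun e => 3 * (1 + e) ^ 3 - r ^ 3 * ((1 + e) ^ 3 + 1 + e ^ 3) with hF
  have hc : ContinuousOn F (Set.Icc 0 1) := by
    apply Continuous.continuousOn
    fun_prop
  have h0 : F 0 < 0 := by simp only [hF]; rw [hr3]; nlinarith
  have h1' : 0 < F 1 := by simp only [hF]; rw [hr3]; nlinarith
  have := intermediate_value_Ioo (zero_le_one) hc
  have hm : (0 : ℝ) ∈ Set.Ioo (F 0) (F 1) := ⟨h0, h1'⟩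
  obtain ⟨e, he, hFe⟩ := this hm
  refine ⟨e, he.1, he.2, ?_⟩
  simp only [hF] at hFe
  linarith

theorem S_eq (a r e : ℝ) (ha0 : 0 < a) (ha : a ^ 3 = 3 / 2) (hr0 : 0 < r) (hr : r ^ 2 = 3 / 2)
    (he0 : 0 < e) (he1 : e < 1)
    (he : 3 * (1 + e) ^ 3 = r ^ 3 * ((1 + e) ^ 3 + 1 + e ^ 3)) (i j : Option (Option ℕ)) :
    S (g r e i) (g r e j) = S (f a e i) (f a e j) := by
  have h2 : r < 1.3 := by nlinarith
  -- line against line
  have key1 : ∀ n m : ℕ, S (g r e (some (some n))) (g r e (some (some m)))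
      = S (f a e (some (some n))) (f a e (some (some m))) := by
    intro n m
    simp only [S, f, g, Matrix.cons_val_zero, Matrix.cons_val_one, Matrix.cons_val]
    have e1 : -(a * ((n : ℝ) + 2)) - -(a * ((m : ℝ) + 2)) = a * ((m : ℝ) - n) := by ring
    have e2 : -((n : ℝ) + 2) - -((m : ℝ) + 2) = (m : ℝ) - n := by ring
    rw [e1, e2, abs_mul, mul_pow, abs_of_pos ha0, ha]
    simp
    ring
  have key2 : ∀ n : ℕ, S (g r e none) (g r e (some (some n)))
      = S (f a e none) (f a e (some (some n))) := by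
    intro n
    have hn : (0 : ℝ) ≤ n := Nat.cast_nonneg n
    simp only [S, f, g, Matrix.cons_val_zero, Matrix.cons_val_one, Matrix.cons_val]
    have e1 : |a - -(a * ((n : ℝ) + 2))| = a * (n + 3) := by
      rw [abs_of_nonneg (by nlinarith)]; ring
    have e2 : |-a - -(a * ((n : ℝ) + 2))| = a * (n + 1) := by
      rw [abs_of_nonneg (by nlinarith)]; ring
    have e3 : |r - -((n : ℝ) + 2)| = r + n + 2 := by
      rw [abs_of_nonneg (by nlinarith)]; ring
    have e4 : |-r - -((n : ℝ) + 2)| = n + 2 - r := by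
      rw [abs_of_nonneg (by nlinarith)]; ring
    have e5 : |0 - -((n : ℝ) + 2)| = n + 2 := by
      rw [abs_of_nonneg (by nlinarith)]; ring
    rw [e1, e2, e3, e4, e5, mul_pow, mul_pow, ha]
    simp
    linear_combination (6 * ((n : ℝ) + 2)) * hr
  have key3 : ∀ n : ℕ, S (g r e (some none)) (g r e (some (some n)))
      = S (f a e (some none)) (f a e (some (some n))) := by
    intro n
    have hn : (0 : ℝ) ≤ n := Nat.cast_nonneg n
    simp only [S, f, g, Matrix.cons_val_zero, Matrix.cons_val_one, Matrix.cons_val]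
    have hae : 0 < a * e := by positivity
    have hae1 : a * e < a := by nlinarith
    have hre : 0 < r * e := by positivity
    have hre1 : r * e < r := by nlinarith
    have e1 : |-(a * e) - -(a * ((n : ℝ) + 2))| = a * (n + 2 - e) := by
      rw [abs_of_nonneg (by nlinarith)]; ring
    have e2 : |a * e - -(a * ((n : ℝ) + 2))| = a * (n + 2 + e) := by
      rw [abs_of_nonneg (by nlinarith)]; ring
    have e3 : |-(r * e) - -((n : ℝ) + 2)| = n + 2 - r * e := by
      rw [abs_of_nonneg (by nlinarith)]; ring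
    have e4 : |r * e - -((n : ℝ) + 2)| = n + 2 + r * e := by
      rw [abs_of_nonneg (by nlinarith)]; ring
    have e5 : |0 - -((n : ℝ) + 2)| = n + 2 := by
      rw [abs_of_nonneg (by nlinarith)]; ring
    rw [e1, e2, e3, e4, e5, mul_pow, mul_pow, ha]
    simp
    linear_combination (6 * ((n : ℝ) + 2) * e ^ 2) * hr
  have key4 : S (g r e none) (g r e (some none)) = S (f a e none) (f a e (some none)) := by
    simp only [S, f, g, Matrix.cons_val_zero, Matrix.cons_val_one, Matrix.cons_val]
    have e1 : |a - -(a * e)| = a * (1 + e) := by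
      rw [abs_of_nonneg (by nlinarith [mul_pos ha0 he0])]; ring
    have e2 : |-a - a * e| = a * (1 + e) := by
      rw [abs_of_nonpos (by nlinarith [mul_pos ha0 he0])]; ring
    have e3 : |r - -(r * e)| = r * (1 + e) := by
      rw [abs_of_nonneg (by nlinarith [mul_pos hr0 he0])]; ring
    have e4 : |-r - 0| = r := by
      rw [abs_of_nonpos (by linarith)]; ring
    have e5 : |0 - r * e| = r * e := by
      rw [abs_of_nonpos (by nlinarith [mul_pos hr0 he0])]; ring
    rw [e1, e2, e3, e4, e5, mul_pow, mul_pow, mul_pow, ha]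
    simp
    linear_combination -he
  match i, j with
  | none, none => rw [S_self, S_self]
  | none, some none => exact key4
  | some none, none => rw [S_comm, key4, S_comm]
  | some none, some none => rw [S_self, S_self]
  | none, some (some n) => exact key2 n
  | some (some n), none => rw [S_comm, key2 n, S_comm]
  | some none, some (some n) => exact key3 n
  | some (some n), some none => rw [S_comm, key3 n, S_comm]
  | some (some n), some (some m) => exact key1 n m

theorem S_pos (x y : Fin 3 → ℝ) (h : S x y = 0) : x = y := by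
  unfold S at h
  have h0 := pow_nonneg (abs_nonneg (x 0 - y 0)) 3
  have h1 := pow_nonneg (abs_nonneg (x 1 - y 1)) 3
  have h2 := pow_nonneg (abs_nonneg (x 2 - y 2)) 3
  have e0 : |x 0 - y 0| ^ 3 = 0 := by linarith
  have e1 : |x 1 - y 1| ^ 3 = 0 := by linarith
  have e2 : |x 2 - y 2| ^ 3 = 0 := by linarith
  have f0 := sub_eq_zero.1 (abs_eq_zero.1 (pow_eq_zero_iff (by norm_num) |>.1 e0))
  have f1 := sub_eq_zero.1 (abs_eq_zero.1 (pow_eq_zero_iff (by norm_num) |>.1 e1))
  have f2 := sub_eq_zero.1 (abs_eq_zero.1 (pow_eq_zero_iff (by norm_num) |>.1 e2))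
  funext i
  fin_cases i
  · exact f0
  · exact f1
  · exact f2

theorem f_inj (a e : ℝ) (ha0 : 0 < a) (he0 : 0 < e) : Function.Injective (f a e) := by
  have hae : 0 < a * e := by positivity
  intro i j h
  match i, j with
  | none, none => rfl
  | none, some none =>
    have := congrFun h 0
    simp only [f, Matrix.cons_val_zero] at this
    nlinarith
  | some none, none =>
    have := congrFun h 0
    simp only [f, Matrix.cons_val_zero] at this
    nlinarith
  | some none, some none => rfl
  | none, some (some n) =>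
    have hn : (0 : ℝ) ≤ n := Nat.cast_nonneg n
    have := congrFun h 0
    simp only [f, Matrix.cons_val_zero] at this
    nlinarith
  | some (some n), none =>
    have hn : (0 : ℝ) ≤ n := Nat.cast_nonneg n
    have := congrFun h 0
    simp only [f, Matrix.cons_val_zero] at this
    nlinarith
  | some none, some (some n) =>
    have hn : (0 : ℝ) ≤ n := Nat.cast_nonneg n
    have := congrFun h 1
    simp only [f, Matrix.cons_val_one, Matrix.cons_val_zero] at this
    nlinarith
  | some (some n), some none =>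
    have hn : (0 : ℝ) ≤ n := Nat.cast_nonneg n
    have := congrFun h 1
    simp only [f, Matrix.cons_val_one, Matrix.cons_val_zero] at this
    nlinarith
  | some (some n), some (some m) =>
    have := congrFun h 0
    simp only [f, Matrix.cons_val_zero] at this
    have h1 : a * ((n : ℝ) - m) = 0 := by linarith
    rcases mul_eq_zero.1 h1 with h2 | h2
    · exact absurd h2 ha0.ne'
    · have : (n : ℝ) = m := by linarith
      rw [Nat.cast_injective this]

theorem not_inSomePlane (r e : ℝ) (hr0 : 0 < r) (he0 : 0 < e) :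
    ¬ InSomePlane (Set.range (g r e)) := by
  rintro ⟨P, hP, hM⟩
  have m0 : g r e (some (some 0)) ∈ P := hM ⟨_, rfl⟩
  have m1 : g r e (some (some 1)) ∈ P := hM ⟨_, rfl⟩
  have m2 : g r e none ∈ P := hM ⟨_, rfl⟩
  have m3 : g r e (some none) ∈ P := hM ⟨_, rfl⟩
  have d1 := AffineSubspace.vsub_mem_direction m1 m0
  have d2 := AffineSubspace.vsub_mem_direction m2 m0
  have d3 := AffineSubspace.vsub_mem_direction m3 m0
  have hli : LinearIndependent ℝ ![g r e (some (some 1)) -ᵥ g r e (some (some 0)),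
      g r e none -ᵥ g r e (some (some 0)), g r e (some none) -ᵥ g r e (some (some 0))] := by
    rw [Fintype.linearIndependent_iff]
    intro c hc
    have c0 := congrFun hc 0
    have c1 := congrFun hc 1
    have c2 := congrFun hc 2
    simp [Fin.sum_univ_three, g] at c0 c1 c2
    have hre : 0 < r * e := by positivity
    have q1 : c 1 * r + c 1 * r = c 2 * (r * e) := by nlinarith
    have q2 : c 1 * r = - (2 * (c 2 * (r * e))) := by nlinarith
    have h2 : c 2 = 0 := by
      have : c 2 * (r * e) = 0 := by nlinarith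
      rcases mul_eq_zero.1 this with h | h
      · exact h
      · exact absurd h hre.ne'
    have h1 : c 1 = 0 := by
      rw [h2] at q2
      have : c 1 * r = 0 := by linarith
      rcases mul_eq_zero.1 this with h | h
      · exact h
      · exact absurd h hr0.ne'
    have h0 : c 0 = 0 := by
      rw [h1, h2] at c0
      linarith
    intro i
    fin_cases i
    · exact h0
    · exact h1
    · exact h2
  have hmem : ∀ i, (![g r e (some (some 1)) -ᵥ g r e (some (some 0)),
      g r e none -ᵥ g r e (some (some 0)), g r e (some none) -ᵥ g r e (some (some 0))] :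
        Fin 3 → (Fin 3 → ℝ)) i ∈ P.direction := by
    intro i
    fin_cases i
    · exact d1
    · exact d2
    · exact d3
  have hspan : Submodule.span ℝ (Set.range ![g r e (some (some 1)) -ᵥ g r e (some (some 0)),
      g r e none -ᵥ g r e (some (some 0)), g r e (some none) -ᵥ g r e (some (some 0))])
        ≤ P.direction := by
    rw [Submodule.span_le]
    rintro _ ⟨i, rfl⟩
    exact hmem i
  have h3 := finrank_span_eq_card hli
  have h4 := Submodule.finrank_mono hspan
  rw [h3, hP] at h4
  simp at h4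

/-- **Negative answer to Q1 of MP_04b39a_gt** (with `p = 3`): there are `p ∈ (1, ∞)`, an infinite
set `M` contained in a horizontal plane of `ℝ³` and an `ℓ_p`-isometric copy `M'` of `M` which is
not contained in any plane. -/
theorem result : ∃ p : ℝ, 1 < p ∧ ∃ M M' : Set (Fin 3 → ℝ),
    M.Infinite ∧ InHorizontalPlane M ∧ IsLpCopy p M M' ∧ ¬ InSomePlane M' := by
  refine ⟨3, by norm_num, ?_⟩
  obtain ⟨a, ha0, ha⟩ : ∃ a : ℝ, 0 < a ∧ a ^ 3 = 3 / 2 := by
    refine ⟨(3 / 2 : ℝ) ^ (1 / 3 : ℝ), by positivity, ?_⟩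
    rw [← Real.rpow_natCast, ← Real.rpow_mul (by norm_num)]
    norm_num
  obtain ⟨r, hr0, hr⟩ : ∃ r : ℝ, 0 < r ∧ r ^ 2 = 3 / 2 :=
    ⟨Real.sqrt (3 / 2), by positivity, Real.sq_sqrt (by norm_num)⟩
  obtain ⟨e, he0, he1, he⟩ := exists_eps r hr0 hr
  have hS := S_eq a r e ha0 ha hr0 hr he0 he1 he
  have hf := f_inj a e ha0 he0
  have hg : Function.Injective (g r e) := by
    intro i j h
    apply hf
    apply S_pos
    rw [← hS i j, h, S_self]
  refine ⟨Set.range (f a e), Set.range (g r e), ?_, ?_, ?_, not_inSomePlane r e hr0 he0⟩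
  · exact Set.infinite_range_of_injective hf
  · refine ⟨0, ?_⟩
    rintro _ ⟨i, rfl⟩
    match i with
    | none => simp [f]
    | some none => simp [f]
    | some (some n) => simp [f]
  · have hinv : ∀ i, Function.invFun (f a e) (f a e i) = i := Function.leftInverse_invFun hf
    refine ⟨g r e ∘ Function.invFun (f a e), ⟨?_, ?_, ?_⟩, ?_⟩
    · rintro _ ⟨i, rfl⟩
      exact ⟨_, rfl⟩
    · rintro _ ⟨i, rfl⟩ _ ⟨j, rfl⟩ h
      simp only [Function.comp_apply, hinv] at h
      rw [hg h]
    · rintro _ ⟨i, rfl⟩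
      exact ⟨f a e i, ⟨i, rfl⟩, by simp only [Function.comp_apply, hinv]⟩
    · rintro _ ⟨i, rfl⟩ _ ⟨j, rfl⟩
      simp only [Function.comp_apply, hinv, lpDist_three, hS]

end Pool.Agent.Results.MP_04b39a_gt.NonplanarCopy
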